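import Pool.Agent.Helper86.SJ.Defs

/-! Package CEN of the project SJ (MP_66bcf1_co). -/

open Finset

namespace Pool.Agent.Helper87.SJ

open _root_.SJ

lemma mem_supp' {n : ℕ} {v : Fin n → ℤ} {i : Fin n} : i ∈ supp v ↔ v i ≠ 0 := by
  simp [supp]

lemma mem_fib' {n : ℕ} {F : Finset (Fin n → ℤ)} {S : Finset (Fin n)} {v : Fin n → ℤ} :
    v ∈ fib F S ↔ v ∈ F ∧ supp v = S := by
  classical
  simp [fib]

/-- part (i) -/
lemma cen_fib (n k : ℕ) (F : Finset (Fin n → ℤ)) (hF : ∀ v ∈ F, IsV n k v)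
    (T : Finset (Fin n)) (hTu : ∀ t ∈ T, ∀ u, u ∉ T → Arc F t u)
    (hTT : ∀ t ∈ T, ∀ t' ∈ T, t ≠ t' → Arc F t t' ∨ Arc F t' t)
    (S : Finset (Fin n)) (hST : ¬ Disjoint S T) : #(fib F S) ≤ 2 := by
  classical
  obtain ⟨t, htS, htT⟩ := Finset.not_disjoint_iff.mp hST
  -- no arc into a coordinate where two members of the fibre differ
  have hno : ∀ f : Fin n, ∀ v ∈ fib F S, ∀ v' ∈ fib F S, v f ≠ v' f →
      f ∈ S ∧ ∀ u ∈ S, ¬ Arc F u f := by
    intro f v hv v' hv' hne
    rw [mem_fib'] at hv hv'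
    have hfS : f ∈ S := by
      by_contra hfS
      have h1 : v f = 0 := by
        by_contra h
        exact hfS (hv.2 ▸ mem_supp'.mpr h)
      have h2 : v' f = 0 := by
        by_contra h
        exact hfS (hv'.2 ▸ mem_supp'.mpr h)
      exact hne (h1.trans h2.symm)
    refine ⟨hfS, fun u huS harc => ?_⟩
    obtain ⟨-, -, -, c, -, hc⟩ := harc
    have h1 : v f = c := hc v hv.1 (mem_supp'.mp (hv.2 ▸ huS)) (mem_supp'.mp (hv.2 ▸ hfS))
    have h2 : v' f = c := hc v' hv'.1 (mem_supp'.mp (hv'.2 ▸ huS)) (mem_supp'.mp (hv'.2 ▸ hfS))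
    exact hne (h1.trans h2.symm)
  have hinT : ∀ f : Fin n, ∀ v ∈ fib F S, ∀ v' ∈ fib F S, v f ≠ v' f → f ∈ T := by
    intro f v hv v' hv' hne
    by_contra hfT
    exact (hno f v hv v' hv' hne).2 t htS (hTu t htT f hfT)
  by_cases hex : ∃ f : Fin n, ∃ v ∈ fib F S, ∃ v' ∈ fib F S, v f ≠ v' f
  · obtain ⟨f, v, hv, v', hv', hne⟩ := hex
    have huniq : ∀ g : Fin n, g ≠ f → ∀ w ∈ fib F S, ∀ w' ∈ fib F S, w g = w' g := by
      intro g hgf w hw w' hw'
      by_contra hne'
      have h1 := hno f v hv v' hv' hne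
      have h2 := hno g w hw w' hw' hne'
      rcases hTT f (hinT f v hv v' hv' hne) g (hinT g w hw w' hw' hne') (Ne.symm hgf) with h | h
      · exact h2.2 f h1.1 h
      · exact h1.2 g h2.1 h
    have hfS := (hno f v hv v' hv' hne).1
    have hcard : #(fib F S) ≤ #({-1, 1} : Finset ℤ) := by
      apply Finset.card_le_card_of_injOn (fun w => w f)
      · intro w hw
        have hw' := mem_fib'.mp (Finset.mem_coe.mp hw)
        have h0 : w f ≠ 0 := mem_supp'.mp (hw'.2 ▸ hfS)
        rcases (hF w hw'.1).1 f with h | h | h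
        · simp [h]
        · exact absurd h h0
        · simp [h]
      · intro w hw w' hw' hww
        funext g
        by_cases hg : g = f
        · subst hg; exact hww
        · exact huniq g hg w hw w' hw'
    exact hcard.trans (by decide)
  · push Not at hex
    have : #(fib F S) ≤ 1 := by
      rw [Finset.card_le_one]
      intro w hw w' hw'
      funext f
      exact hex f w hw w' hw'
    omega

theorem cen : CENStm := by
  classical
  intro n k F hk hF T V v₁ hv₁V hv₁T hV hEX hTu hTT hv₁u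
  refine ⟨fun S _ hST => ?_, ?_⟩
  · have := cen_fib n k F hF.1 T hTu hTT S hST
    exact this
  have hc0 : ∀ i : Fin n, ∃ c : ℤ, (c = 1 ∨ c = -1) ∧
      (i ∉ T → i ≠ v₁ → ∀ v ∈ F, v v₁ ≠ 0 → v i ≠ 0 → v i = c) := by
    intro i
    by_cases hi : i ∉ T ∧ i ≠ v₁
    · obtain ⟨-, -, -, c, hc1, hc2⟩ := hv₁u i hi.1 hi.2
      exact ⟨c, hc1, fun _ _ => hc2⟩
    · exact ⟨1, Or.inl rfl, fun h1 h2 => absurd ⟨h1, h2⟩ hi⟩
  choose c hc1 hc2 using hc0
  refine ⟨c, hc1, fun v hv hvT => ?_⟩
  rw [Finset.card_le_one]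
  intro y hy z hz
  rw [Finset.mem_filter] at hy hz
  by_contra hyz
  have hyT : y ∉ T := fun h => Finset.disjoint_left.mp hvT hy.1 h
  have hzT : z ∉ T := fun h => Finset.disjoint_left.mp hvT hz.1 h
  have hvy : v y ≠ 0 := mem_supp'.mp hy.1
  have hvz : v z ≠ 0 := mem_supp'.mp hz.1
  by_cases hv₁ : v v₁ ≠ 0
  · have hy1 : y = v₁ := by
      by_contra h
      exact hy.2 (hc2 y hyT h v hv hv₁ hvy)
    have hz1 : z = v₁ := by
      by_contra h
      exact hz.2 (hc2 z hzT h v hv hv₁ hvz)
    exact hyz (hy1.trans hz1.symm)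
  · rw [not_not] at hv₁
    have hy1 : y ≠ v₁ := fun h => hvy (h ▸ hv₁)
    have hz1 : z ≠ v₁ := fun h => hvz (h ▸ hv₁)
    -- choose R
    have hsupp : #(supp v) = k := (hF.1 v hv).2
    have hle : k - 3 ≤ #((V \ supp v).erase v₁) := by
      have h1 : #V - #(supp v) ≤ #(V \ supp v) := Finset.le_card_sdiff _ _
      have h2 : #(V \ supp v) - 1 ≤ #((V \ supp v).erase v₁) := Finset.pred_card_le_card_erase
      omega
    obtain ⟨R, hRsub, hRcard⟩ := Finset.exists_subset_card_eq hle
    have hRv : ∀ i ∈ R, v i = 0 ∧ i ≠ v₁ := by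
      intro i hi
      have h := hRsub hi
      rw [Finset.mem_erase, Finset.mem_sdiff] at h
      refine ⟨?_, h.1⟩
      by_contra h0
      exact h.2.2 (mem_supp'.mpr h0)
    have hyR : y ∉ R := fun h => hvy (hRv y h).1
    have hzR : z ∉ R := fun h => hvz (hRv z h).1
    have hv₁R : v₁ ∉ R := fun h => (hRv v₁ h).2 rfl
    set S : Finset (Fin n) := insert v₁ (insert y (insert z R)) with hS
    have hScard : #S = k := by
      rw [hS, Finset.card_insert_of_notMem, Finset.card_insert_of_notMem,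
        Finset.card_insert_of_notMem hzR, hRcard]
      · omega
      · rw [Finset.mem_insert, not_or]
        exact ⟨hyz, hyR⟩
      · rw [Finset.mem_insert, Finset.mem_insert, not_or, not_or]
        exact ⟨Ne.symm hy1, Ne.symm hz1, hv₁R⟩
    have hSEX : S ∉ EX k F := by
      intro h
      exact Finset.disjoint_left.mp (hEX S h) (Finset.mem_insert_self _ _) hv₁V
    have hSLL : ¬ #(fib F S) ≤ 1 := by
      intro h
      apply hSEX
      unfold EX
      rw [Finset.mem_union]
      right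
      unfold LL
      rw [Finset.mem_filter, Finset.mem_powersetCard]
      exact ⟨⟨Finset.subset_univ _, hScard⟩, h⟩
    obtain ⟨w, hw⟩ : (fib F S).Nonempty := by
      rw [← Finset.card_pos]; omega
    rw [mem_fib'] at hw
    have hwS : ∀ i, w i ≠ 0 ↔ i ∈ S := fun i => by rw [← mem_supp', hw.2]
    have hw1 : w v₁ ≠ 0 := (hwS v₁).mpr (by simp [hS])
    have hwy : w y ≠ 0 := (hwS y).mpr (by simp [hS])
    have hwz : w z ≠ 0 := (hwS z).mpr (by simp [hS])
    have hwy' : w y = c y := hc2 y hyT hy1 w hw.1 hw1 hwy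
    have hwz' : w z = c z := hc2 z hzT hz1 w hw.1 hw1 hwz
    have hne : v ≠ w := by
      intro h
      exact hw1 (h ▸ hv₁)
    apply hF.2 v hv w hw.1 hne
    have hneg : ∀ i, v i ≠ 0 → v i ≠ c i → v i * c i = -1 := by
      intro i h0 h1
      rcases (hF.1 v hv).1 i with h | h | h <;> rcases hc1 i with h' | h' <;> simp_all
    have hsum : dot v w = ∑ i ∈ ({y, z} : Finset (Fin n)), v i * w i := by
      unfold dot
      symm
      apply Finset.sum_subset (Finset.subset_univ _)
      intro i _ hi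
      rw [Finset.mem_insert, Finset.mem_singleton, not_or] at hi
      by_cases hvi : v i = 0
      · simp [hvi]
      · have : w i = 0 := by
          by_contra hwi
          have hiS := (hwS i).mp hwi
          rw [hS, Finset.mem_insert, Finset.mem_insert, Finset.mem_insert] at hiS
          rcases hiS with h | h | h | h
          · exact hvi (h ▸ hv₁)
          · exact hi.1 h
          · exact hi.2 h
          · exact hvi (hRv i h).1
        simp [this]
    rw [hsum, Finset.sum_pair hyz, hwy', hwz', hneg y hvy hy.2, hneg z hvz hz.2]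
    norm_num

end Pool.Agent.Helper87.SJ
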